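import Pool.Agent.Work.MP_c1bd5a_ag.Final

set_option autoImplicit false

namespace Pool.Agent.Results.MP_c1bd5a_ag.AllOrMeagre

open _root_.MP_c1bd5a_ag

/-- `Loc d g` is the set of the points `τ` of the Siegel upper half space `Siegel g` for which the
principally polarized abelian variety `A_τ = ℂ^g / (ℤ^g + τ ℤ^g)` is a quotient of the Jacobian of a
smooth plane curve of degree `d`; `AllOf d g` says that every abelian variety of dimension `g` is a
quotient of the Jacobian of a smooth plane curve of degree `d`; `Q1` is the question.

* For all `d` and `g`, either the degree `d` works for all abelian varieties of dimension `g`, or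
  the `A_τ` which are quotients of Jacobians of smooth plane curves of degree `d` form a meagre set
  (so for every `g`, either one degree works for all abelian varieties of dimension `g`, or the
  `A_τ` which are quotients of Jacobians of smooth plane curves of any degrees form a meagre set).
* The last two cases exclude each other.
* A degree which works in dimension `g + 1` works in dimension `g`.
* For `g ≥ 1` the quotients of Jacobians of smooth plane curves of degree `2 g + 2` are dense.
* So `Q1` holds if and only if in every dimension one degree works for all abelian varieties, and it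
  fails if and only if in all dimensions from some `g₀` on the quotients form a meagre set. -/
theorem result :
    (∀ d g, AllOf d g ∨ IsMeagre (Loc d g)) ∧
    (∀ g, ¬ ((∃ d, AllOf d g) ∧ IsMeagre (⋃ d, Loc d g))) ∧
    (∀ g d, AllOf d (g + 1) → AllOf d g) ∧
    (∀ g, 1 ≤ g → Dense (Loc (2 * g + 2) g)) ∧
    (Q1 ↔ ∀ g, ∃ d, AllOf d g) ∧
    (¬ Q1 ↔ ∃ g₀, ∀ g, g₀ ≤ g → IsMeagre (⋃ d, Loc d g)) :=
  main

end Pool.Agent.Results.MP_c1bd5a_ag.AllOrMeagre
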